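import Pool.Agent.Q27.LT.Machine

/-!
# Project LT, job COMP: fragments can be composed
-/

set_option autoImplicit false

namespace Pool.Agent.Q195.LT

open Pool.Agent.Q27.LT

variable {W : Type}

theorem reach_add (M : Frag W) (k l : ℕ) : ∀ c c' c'' : M.Q × ℕ × (ℕ → Option (Option W)),
    M.Reach k c c' → M.Reach l c' c'' → M.Reach (k + l) c c'' := by
  induction k with
  | zero =>
    intro c c' c'' h h'
    have h0 : c = c' := h
    rw [Nat.zero_add, h0]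
    exact h'
  | succ k ih =>
    intro c c' c'' h h'
    obtain ⟨c₁, h1, h2⟩ := h
    rw [show k + 1 + l = (k + l) + 1 by omega]
    exact ⟨c₁, h1, ih c₁ c' c'' h2 h'⟩

open Classical in
/-- the composition of two fragments -/
noncomputable def cmp (M₁ M₂ : Frag W) : Frag W where
  Q := M₁.Q ⊕ M₂.Q
  finQ := by
    have := M₁.finQ
    have := M₂.finQ
    infer_instance
  start := Sum.inl M₁.start
  stop := Sum.inr M₂.stop
  δ := fun q s => match q with
    | Sum.inl q => if q = M₁.stop ∧ s = none then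
        (M₂.δ M₂.start none).map (fun r => (Sum.inr r.1, r.2.1, r.2.2))
      else (M₁.δ q s).map (fun r => (Sum.inl r.1, r.2.1, r.2.2))
    | Sum.inr q => (M₂.δ q s).map (fun r => (Sum.inr r.1, r.2.1, r.2.2))
  keep := by
    intro q q' x d h
    rcases q with q | q
    · simp only [and_true] at h
      split_ifs at h with h1
      · rw [Option.map_eq_some_iff] at h
        obtain ⟨⟨r1, r2, r3⟩, h2, h3⟩ := h
        simp only [Prod.mk.injEq] at h3
        obtain ⟨_, rfl, rfl⟩ := h3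
        exact M₂.keep _ _ _ _ h2
      · rw [Option.map_eq_some_iff] at h
        obtain ⟨⟨r1, r2, r3⟩, h2, h3⟩ := h
        simp only [Prod.mk.injEq] at h3
        obtain ⟨_, rfl, rfl⟩ := h3
        exact M₁.keep _ _ _ _ h2
    · simp only at h
      rw [Option.map_eq_some_iff] at h
      obtain ⟨⟨r1, r2, r3⟩, h2, h3⟩ := h
      simp only [Prod.mk.injEq] at h3
      obtain ⟨_, rfl, rfl⟩ := h3
      exact M₂.keep _ _ _ _ h2
  only := by
    intro q s q' x d h hx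
    rcases q with q | q
    · simp only at h
      split_ifs at h with h1
      · exact h1.2
      · rw [Option.map_eq_some_iff] at h
        obtain ⟨⟨r1, r2, r3⟩, h2, h3⟩ := h
        simp only [Prod.mk.injEq] at h3
        obtain ⟨_, rfl, rfl⟩ := h3
        exact M₁.only _ _ _ _ _ h2 hx
    · simp only at h
      rw [Option.map_eq_some_iff] at h
      obtain ⟨⟨r1, r2, r3⟩, h2, h3⟩ := h
      simp only [Prod.mk.injEq] at h3
      obtain ⟨_, rfl, rfl⟩ := h3
      exact M₂.only _ _ _ _ _ h2 hx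
  halt := by
    simp only
    rw [M₂.halt]
    rfl
  ne := by simp

theorem cmp_next₂ (M₁ M₂ : Frag W) (q : M₂.Q) (p : ℕ) (t : ℕ → Option (Option W)) :
    (cmp M₁ M₂).next (Sum.inr q, p, t) =
      (M₂.next (q, p, t)).map (fun c => (Sum.inr c.1, c.2.1, c.2.2)) := by
  simp only [Frag.next, cmp, Option.map_map]
  rfl

theorem cmp_next₁ (M₁ M₂ : Frag W) (q : M₁.Q) (p : ℕ) (t : ℕ → Option (Option W))
    (c : M₁.Q × ℕ × (ℕ → Option (Option W))) (h : M₁.next (q, p, t) = some c) :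
    (cmp M₁ M₂).next (Sum.inl q, p, t) = some (Sum.inl c.1, c.2.1, c.2.2) := by
  have h1 : ¬ (q = M₁.stop ∧ t p = none) := by
    rintro ⟨rfl, h2⟩
    simp only [Frag.next, h2, M₁.halt] at h
    simp at h
  simp only [Frag.next, cmp] at h ⊢
  rw [if_neg h1, Option.map_map]
  rw [Option.map_eq_some_iff] at h ⊢
  obtain ⟨r, h2, h3⟩ := h
  exact ⟨r, h2, by rw [← h3]; rfl⟩

theorem cmp_next₀ (M₁ M₂ : Frag W) (t : ℕ → Option (Option W)) (ht : t 0 = none) :
    (cmp M₁ M₂).next (Sum.inl M₁.stop, 0, t) =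
      (M₂.next (M₂.start, 0, t)).map (fun c => (Sum.inr c.1, c.2.1, c.2.2)) := by
  simp only [Frag.next, cmp, ht, and_self, if_true, Option.map_map]
  rfl

theorem cmp_reach₂ (M₁ M₂ : Frag W) (k : ℕ) : ∀ c c' : M₂.Q × ℕ × (ℕ → Option (Option W)),
    M₂.Reach k c c' → (cmp M₁ M₂).Reach k (Sum.inr c.1, c.2.1, c.2.2)
      (Sum.inr c'.1, c'.2.1, c'.2.2) := by
  induction k with
  | zero =>
    intro c c' h
    have h0 : c = c' := h
    rw [h0]
    exact rfl
  | succ k ih =>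
    intro c c' h
    obtain ⟨c₁, h1, h2⟩ := h
    refine ⟨(Sum.inr c₁.1, c₁.2.1, c₁.2.2), ?_, ih c₁ c' h2⟩
    rw [cmp_next₂]
    rw [show ((c.1, c.2.1, c.2.2) : M₂.Q × ℕ × (ℕ → Option (Option W))) = c from rfl, h1]
    rfl

theorem cmp_reach₁ (M₁ M₂ : Frag W) (k : ℕ) : ∀ c c' : M₁.Q × ℕ × (ℕ → Option (Option W)),
    M₁.Reach k c c' → (cmp M₁ M₂).Reach k (Sum.inl c.1, c.2.1, c.2.2)
      (Sum.inl c'.1, c'.2.1, c'.2.2) := by
  induction k with
  | zero =>
    intro c c' h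
    have h0 : c = c' := h
    rw [h0]
    exact rfl
  | succ k ih =>
    intro c c' h
    obtain ⟨c₁, h1, h2⟩ := h
    exact ⟨(Sum.inl c₁.1, c₁.2.1, c₁.2.2), cmp_next₁ M₁ M₂ c.1 c.2.1 c.2.2 c₁ h1, ih c₁ c' h2⟩

theorem s_comp : S_comp := by
  intro W _ F G M₁ M₂ K h1 h2 hK
  obtain ⟨C₁, h1⟩ := h1
  obtain ⟨C₂, h2⟩ := h2
  refine ⟨cmp M₁ M₂, C₁ + C₂ * (K + 1), fun x => ?_⟩
  obtain ⟨k₁, hk₁, r₁⟩ := h1 x
  obtain ⟨k₂, hk₂, r₂⟩ := h2 (F x)
  have hle : (F x).length + 1 ≤ (K + 1) * (x.length + 1) := by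
    have := hK x
    nlinarith
  refine ⟨k₁ + k₂, ?_, ?_⟩
  · have h3 : C₂ * ((F x).length + 1) ≤ C₂ * ((K + 1) * (x.length + 1)) :=
      Nat.mul_le_mul_left _ hle
    calc k₁ + k₂ ≤ C₁ * (x.length + 1) + C₂ * ((K + 1) * (x.length + 1)) := by omega
      _ = (C₁ + C₂ * (K + 1)) * (x.length + 1) := by ring
  · have e1 := cmp_reach₁ M₁ M₂ k₁ _ _ r₁
    refine reach_add _ k₁ k₂ _ _ _ e1 ?_
    obtain _ | k₂ := k₂
    · exfalso
      have h0 : (M₂.start, 0, tapeOf (F x)) = (M₂.stop, 0, tapeOf (G (F x))) := r₂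
      exact M₂.ne (congrArg Prod.fst h0)
    · obtain ⟨c₁, h3, h4⟩ := r₂
      refine ⟨(Sum.inr c₁.1, c₁.2.1, c₁.2.2), ?_, cmp_reach₂ M₁ M₂ k₂ _ _ h4⟩
      rw [cmp_next₀ M₁ M₂ _ rfl, h3]
      rfl

end Pool.Agent.Q195.LT
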