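import Pool.Agent.Q27.LT.Machine

/-!
# Project LT, job LINTIME: all sweeps are computed in linear time
-/

set_option autoImplicit false

namespace Pool.Agent.Q195.LT

open Pool.Agent.Q27.LT

/-- the round that copies everything -/
def idRound (W : Type) : Round W where
  Q := Unit
  finQ := inferInstance
  q0 := ()
  f := fun _ _ => ()
  o := fun _ w => w
  t := fun _ => Act.keep
  Q' := Unit
  finQ' := inferInstance
  q0' := ()
  f' := fun _ _ => ()
  o' := fun _ w => w

theorem idRound_run (W : Type) (x : List W) : (idRound W).run x = x := by
  have h1 : ∀ (q : Unit) (y : List W), lrun (fun _ _ => ()) (fun _ w => w) q y = y := by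
    intro q y
    induction y generalizing q with
    | nil => rfl
    | cons a y ih => simp [lrun, ih]
  have h2 : ∀ (q : Unit) (y : List W), (rrun (fun _ _ => ()) (fun _ w => w) q y).2 = y := by
    intro q y
    induction y with
    | nil => rfl
    | cons a y ih => simp [rrun, ih]
  simp only [Round.run, idRound, Act.run]
  rw [h1, h2]

theorem act_length {W : Type} (a : Act W) (x : List W) : (a.run x).length ≤ x.length + 1 := by
  cases a with
  | keep => simp [Act.run]
  | push a => simp [Act.run]
  | pop =>
    simp only [Act.run, List.length_dropLast]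
    omega

theorem run_length {W : Type} (R : Round W) (x : List W) : (R.run x).length ≤ x.length + 1 := by
  unfold Round.run
  rw [rrun_length]
  refine (act_length _ _).trans ?_
  rw [lrun_length]

theorem s_lintime (h1 : S_rounds) (h2 : S_round) (h3 : S_comp) (h4 : S_machine) : S_lintime := by
  intro A _ f hf
  obtain ⟨W, hW, i, j, l, hi, hj, h⟩ := h1 A A inferInstance inferInstance f hf
  have key : ∀ l : List (Round W), ∃ M : Frag W, M.Does (runs l) := by
    intro l
    induction l with
    | nil =>
      obtain ⟨M, hM⟩ := h2 W hW (idRound W)
      refine ⟨M, ?_⟩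
      have : (idRound W).run = runs [] := funext fun x => idRound_run W x
      rw [← this]
      exact hM
    | cons R l ih =>
      obtain ⟨M₁, hM₁⟩ := h2 W hW R
      obtain ⟨M₂, hM₂⟩ := ih
      exact h3 W hW R.run (runs l) M₁ M₂ 1 hM₁ hM₂ (run_length R)
  obtain ⟨M, hM⟩ := key l
  exact h4 A W inferInstance hW i j (runs l) f M hM hi hj h

end Pool.Agent.Q195.LT
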